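import Mathlib
import Pool.Agent.Run7.h227.JP.Joint
import Pool.Agent.Run7.h6.ZM.Meas

/-!
# Machines which read the expansions of `ζ(7), ζ(9), ζ(11), ζ(13)` in parallel

One of the four numbers `ζ(7), ζ(9), ζ(11), ζ(13)` is irrational (`MP_c2395a_nt`, hand-in
`OddZeta7To13`). Fix a base `b ≥ 2` and write the four numbers (up to integers) as
`∑ a i j / b ^ (i + 1)`, where the `a i j` are the digits, or more generally any integers of absolute
value at most `b ^ h`. A machine with `Q` states reads the four expansions in parallel, one place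
after the other, and before it reads the next place it predicts the letters of this place. If all the
four numbers were rational, some machine would make finitely many errors for the digits. We prove:

(1) If a machine with `Q` states makes `E` errors on the first `N` places (places at which one of its
four predictions is false) then `N ≤ (1814 + 1814² + ⋯ + 1814^(E+1)) (Q + C)`, where `C` depends only
on `h`. So every machine makes at least `(log N) / log 1814 - O(1)` errors.

(2) If `θ + c log 1814 < 1` then, at EVERY scale `N ≥ N₀`, every machine with at most `N^θ` states makes more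
than `c log N` errors on the first `N` places; `N₀` depends neither on the base nor on the expansions.

(3) If `θ + c log 1814 < 1/4` then, at every scale `N ≥ N₀`, for one of the four numbers every machine with at
most `N^θ` states, which reads all the four expansions but has to predict only the letters of this
number, makes more than `c log N` errors. So the past of the other three numbers does not help.

The machines of (3) are stronger than the predictors which see only one of the numbers.

The proof: between two errors the machine is autonomous, so the four expansions have a common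
period of length at most `Q`, which gives rational approximations with a common denominator
`b ^ (u + s) (b ^ p - 1)`, `s + p ≤ Q`, against the simultaneous measure of the four numbers with exponent
`1814` (`Pool.Agent.Run7.h6.ZM.measure`, by the authors of `OddZeta7To13`). For (3) one uses the product
of four machines.
-/

set_option autoImplicit false

open Finset

namespace Pool.Agent.Results.MP_4f096c_nt.JointPredictors

/-- the numbers `ζ(7), ζ(9), ζ(11), ζ(13)`, for `j = 0, 1, 2, 3` -/
noncomputable def number (j : Fin 4) : ℝ := ∑' n : ℕ, 1 / ((n : ℝ) + 1) ^ (2 * (j : ℕ) + 7)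

/-- `a` gives expansions of the four numbers, up to integers, in base `b` by integers of absolute value
at most `b ^ h` (for example the digits, with `h = 1`). The letters at the place `i` are
`a i 0, a i 1, a i 2, a i 3`. -/
def Expansion (h b : ℕ) (a : ℕ → Fin 4 → ℤ) : Prop :=
  (∀ i j, |a i j| ≤ ((b ^ h : ℕ) : ℤ)) ∧
    ∀ j, ∃ n : ℤ, HasSum (fun i : ℕ => (a i j : ℝ) / (b : ℝ) ^ (i + 1)) (number j - n)

/-- A machine: a finite automaton with `Q` states which reads the letters of all four expansions in
parallel and whose predictions are in `α`. -/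
structure Machine (α : Type) where
  /-- the number of states -/
  Q : ℕ
  /-- the next state -/
  next : Fin Q → (Fin 4 → ℤ) → Fin Q
  /-- the initial state -/
  start : Fin Q
  /-- the prediction -/
  out : Fin Q → α

/-- the state of the machine after it has read the places `0, …, n - 1` -/
def Machine.state {α : Type} (M : Machine α) (a : ℕ → Fin 4 → ℤ) : ℕ → Fin M.Q
  | 0 => M.start
  | n + 1 => M.next (M.state a n) (a n)

/-- the number of `n < N` such that the machine, having read the places `0, …, n - 1`, does not predict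
all four letters of the place `n` correctly -/
noncomputable def errors (M : Machine (Fin 4 → ℤ)) (a : ℕ → Fin 4 → ℤ) (N : ℕ) : ℕ :=
  ((range N).filter fun n => M.out (M.state a n) ≠ a n).card

/-- the number of `n < N` such that the machine, having read the places `0, …, n - 1` of all four
expansions, does not predict the letter of the `j`-th number at the place `n` correctly -/
noncomputable def errorsAt (j : Fin 4) (M : Machine ℤ) (a : ℕ → Fin 4 → ℤ) (N : ℕ) : ℕ :=
  ((range N).filter fun n => M.out (M.state a n) ≠ a n j).card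

theorem state_eq {α : Type} (M : Machine α) (a : ℕ → Fin 4 → ℤ) (n : ℕ) :
    M.state a n = Run7.h227.JP.run M.next M.start a n := by
  induction n with
  | zero => rfl
  | succ n ih =>
    change M.next (M.state a n) (a n) = M.next (Run7.h227.JP.run M.next M.start a n) (a n)
    rw [ih]

theorem errors_eq (M : Machine (Fin 4 → ℤ)) (a : ℕ → Fin 4 → ℤ) (N : ℕ) :
    errors M a N = Run7.h227.JP.errors M.next M.start M.out a N := by
  classical
  unfold errors Run7.h227.JP.errors
  congr 1
  ext n
  simp only [mem_filter, state_eq]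

theorem errorsAt_eq (j : Fin 4) (M : Machine ℤ) (a : ℕ → Fin 4 → ℤ) (N : ℕ) :
    errorsAt j M a N = Run7.h227.JP.errorsAt M.next M.start M.out a j N := by
  classical
  unfold errorsAt Run7.h227.JP.errorsAt
  congr 1
  ext n
  simp only [mem_filter, state_eq]

/-- the simultaneous measure -/
theorem meas : ∃ c : ℝ, 0 < c ∧ ∀ q : ℕ, 1 ≤ q → ∀ p : Fin 4 → ℤ,
    ∃ j, c ≤ (q : ℝ) ^ 1813 * |(q : ℝ) * number j - p j| := by
  obtain ⟨c, hc, h⟩ := Pool.Agent.Run7.h6.ZM.measure
  refine ⟨c, hc, fun q hq p => ?_⟩
  have hq0 : (0 : ℝ) < q := by exact_mod_cast hq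
  obtain ⟨j, hj, hv⟩ := h (fun j => if hj : (j - 7) / 2 < 4 then p ⟨(j - 7) / 2, hj⟩ else 0) q hq
  have key : ∀ i : Fin 4, j = 2 * (i : ℕ) + 7 → ∃ i, c ≤ (q : ℝ) ^ 1813 *
      |(q : ℝ) * number i - p i| := by
    intro i hij
    refine ⟨i, ?_⟩
    subst hij
    have h1 : (2 * (i : ℕ) + 7 - 7) / 2 = i := by omega
    have h2 : (2 * (i : ℕ) + 7 - 7) / 2 < 4 := by omega
    rw [dif_pos h2] at hv
    have h3 : (⟨(2 * (i : ℕ) + 7 - 7) / 2, h2⟩ : Fin 4) = i := Fin.ext h1
    rw [h3] at hv
    have h4 : c / (q : ℝ) ^ 1814 ≤ |number i - (p i : ℝ) / q| := hv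
    rw [div_le_iff₀ (by positivity)] at h4
    have e2 : |(q : ℝ) * number i - p i| = q * |number i - (p i : ℝ) / q| := by
      nth_rewrite 2 [← abs_of_pos hq0]
      rw [← abs_mul]
      congr 1
      field_simp
    rw [e2]
    calc c ≤ |number i - (p i : ℝ) / q| * (q : ℝ) ^ 1814 := h4
      _ = _ := by ring
  fin_cases hj
  · exact key 0 rfl
  · exact key 1 rfl
  · exact key 2 rfl
  · exact key 3 rfl

/-- **Machines which read the expansions of `ζ(7), ζ(9), ζ(11), ζ(13)` in parallel.** -/
theorem result : (∀ j : Fin 4, ((number j : ℝ) : ℂ) = riemannZeta ((2 * (j : ℕ) + 7 : ℕ) : ℂ)) ∧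
    -- (1) the inequality for one machine for all four numbers
    (∀ h : ℕ, ∃ C : ℝ, 0 ≤ C ∧ ∀ b : ℕ, 2 ≤ b → ∀ a : ℕ → Fin 4 → ℤ, Expansion h b a →
      ∀ (M : Machine (Fin 4 → ℤ)) (N : ℕ),
        (N : ℝ) ≤ (∑ i ∈ range (errors M a N + 1), (1814 : ℝ) ^ (i + 1)) * (M.Q + C)) ∧
    -- (2) many errors at every large scale
    (∀ (h : ℕ) (θ c : ℝ), 0 ≤ θ → 0 ≤ c → θ + c * Real.log 1814 < 1 → ∃ N₀ : ℕ, ∀ b : ℕ, 2 ≤ b →
      ∀ a : ℕ → Fin 4 → ℤ, Expansion h b a → ∀ N : ℕ, N₀ ≤ N → ∀ M : Machine (Fin 4 → ℤ),
        (M.Q : ℝ) ≤ (N : ℝ) ^ θ → c * Real.log N < errors M a N) ∧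
    -- (3) at every large scale one of the numbers is hard also for the machines which read all
    ∀ (h : ℕ) (θ c : ℝ), 0 ≤ θ → 0 ≤ c → θ + c * Real.log 1814 < 1 / 4 → ∃ N₀ : ℕ, ∀ b : ℕ, 2 ≤ b →
      ∀ a : ℕ → Fin 4 → ℤ, Expansion h b a → ∀ N : ℕ, N₀ ≤ N → ∃ j : Fin 4, ∀ M : Machine ℤ,
        (M.Q : ℝ) ≤ (N : ℝ) ^ θ → c * Real.log N < errorsAt j M a N := by
  obtain ⟨c0, hc0, hM⟩ := meas
  have e : ((1813 : ℕ) : ℝ) + 1 = 1814 := by norm_num
  refine ⟨fun i => ?_, fun h => ?_, fun h θ c hθ hc hlt => ?_, fun h θ c hθ hc hlt => ?_⟩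
  · rw [zeta_eq_tsum_one_div_nat_add_one_cpow (by simp; linarith), number, Complex.ofReal_tsum]
    refine tsum_congr fun n => ?_
    rw [Complex.cpow_natCast]
    push_cast
    rfl
  · obtain ⟨C, hC0, hC⟩ := Run7.h227.JP.joint number 1813 (by norm_num) c0 hc0 hM h
    refine ⟨C, hC0, fun b hb a ha M N => ?_⟩
    have h1 := hC b hb a ha.1 ha.2 (Fin M.Q) M.next M.start M.out N
    rw [← errors_eq, Fintype.card_fin] at h1
    rw [e] at h1
    exact h1
  · obtain ⟨N₀, hN₀⟩ := Run7.h227.JP.large number 1813 (by norm_num) c0 hc0 hM h θ c hθ hc (by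
      rw [e]
      exact hlt)
    refine ⟨N₀, fun b hb a ha N hN M hQ => ?_⟩
    have h1 := hN₀ b hb a ha.1 ha.2 N hN (Fin M.Q) M.next M.start M.out (by
      rw [Fintype.card_fin]; exact hQ)
    rw [← errors_eq] at h1
    exact h1
  · obtain ⟨N₀, hN₀⟩ := Run7.h227.JP.each number 1813 (by norm_num) c0 hc0 hM h θ c hθ hc (by
      rw [e, Fintype.card_fin]
      push_cast
      linarith)
    refine ⟨N₀, fun b hb a ha N hN => ?_⟩
    obtain ⟨j, hj⟩ := hN₀ b hb a ha.1 ha.2 N hN
    refine ⟨j, fun M hQ => ?_⟩
    have h1 := hj M.Q M.next M.start M.out hQ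
    rw [← errorsAt_eq] at h1
    exact h1

end Pool.Agent.Results.MP_4f096c_nt.JointPredictors
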