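import Pool.Agent.N553.PC.Cut
import Pool.Agent.Run7.h6.ZM.Meas

/-!
# The digits of `ζ(7), ζ(9), ζ(11), ζ(13)` are not cut into few pieces of small linear complexity

A sequence has linear complexity at most `m` if it satisfies a linear recurrence of order `m` over `ℚ`; a number is
rational if and only if the sequence of its digits has finite linear complexity. One of the four numbers
`ζ(7), ζ(9), ζ(11), ζ(13)` is irrational (`MP_c2395a_nt`, hand-in `OddZeta7To13`). Here we consider devices with MANY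
recurrences: the first `N` digits are cut at some places into pieces, and every piece satisfies a recurrence of order
`m` of its own.

(1) If the first `N` digits in base `b` of all the four numbers are cut at the same `r` places, and on each piece there
is a common recurrence of order `m` for the four numbers, then
`N ≤ (1814 + 1814² + ⋯ + 1814^(r+1)) (m + C √((m+1) log (m+2)))`.

(2) The same with `r = ∑ r_j`, `m = ∑ m_j` if the digits of the `j`-th number are cut at `r_j` places of its own into pieces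
with recurrences of order `m_j`.

(3) If `θ + 31 c < 1` then at EVERY large scale `N`, in every base `b`, the first `N` digits of one of the four numbers
are not cut at `c log N` places into pieces with recurrences of order `N^θ`. Here `N ≥ N₀`, where `N₀` does not depend
on the base.

For the nine numbers `ζ(11), …, ζ(27)` this is the starting file `PiecesOfSmallComplexity` (with `1628` and `67`).

The proof: the simultaneous measure of the four numbers (`Pool.Agent.Run7.h6.ZM.measure`, exponent `1814`, by the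
authors of `OddZeta7To13`), `Pool.Agent.R473.FP.pieces` and `Pool.Agent.N553.PC` (starting library).
-/

set_option autoImplicit false

open Finset

namespace Pool.Agent.Results.MP_4f096c_nt.Pieces7To13

/-- the `i`-th digit of `x` after the point in base `b` -/
noncomputable def digit (b : ℕ) (x : ℝ) (i : ℕ) : ℤ := ⌊x * (b : ℝ) ^ i⌋ % (b : ℤ)

/-- The `(u+1)`-st, …, `v`-th digits of `x` in base `b` satisfy the linear recurrence of order `m` with the
coefficients `c`. -/
def Recurrence (b : ℕ) (x : ℝ) (m : ℕ) (c : ℕ → ℚ) (u v : ℕ) : Prop :=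
  ∀ i, u ≤ i → i + m < v →
    (digit b x (i + m + 1) : ℚ) = ∑ l ∈ range m, c l * (digit b x (i + l + 1) : ℚ)

/-- Every block `u+1, …, v` of the first `N` places which contains no place `i + 1` with `i ∈ E` is such that
the digits of `x` at these places satisfy a linear recurrence of order `m` over `ℚ` (which may depend on
the block). So the first `N` digits are cut at the places in `E` into pieces of linear complexity at most `m`. -/
def Cut (b : ℕ) (x : ℝ) (N m : ℕ) (E : Finset ℕ) : Prop :=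
  ∀ u v, u ≤ v → v ≤ N → (∀ i ∈ E, i < u ∨ v ≤ i) → ∃ c : ℕ → ℚ, Recurrence b x m c u v

/-- The same for all the numbers `x j` at once, with common recurrences. -/
def CommonCut {J : ℕ} (b : ℕ) (x : Fin J → ℝ) (N m : ℕ) (E : Finset ℕ) : Prop :=
  ∀ u v, u ≤ v → v ≤ N → (∀ i ∈ E, i < u ∨ v ≤ i) → ∃ c : ℕ → ℚ, ∀ j, Recurrence b (x j) m c u v

/-- the numbers `ζ(7), ζ(9), ζ(11), ζ(13)`, for `i = 0, …, 3` -/
noncomputable def number (i : Fin 4) : ℝ := ∑' n : ℕ, 1 / ((n : ℝ) + 1) ^ (2 * (i : ℕ) + 7)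

/-- the simultaneous measure -/
theorem meas : ∃ c : ℝ, 0 < c ∧ Pool.Agent.W47.JL.Meas 4 number 1814 c 0 := by
  obtain ⟨c, hc, h⟩ := Pool.Agent.Run7.h6.ZM.measure
  refine ⟨c, hc, fun q hq p => ?_⟩
  have hq0 : (0 : ℝ) < q := by exact_mod_cast hq
  obtain ⟨j, hj, hv⟩ := h (fun j => if hj : (j - 7) / 2 < 4 then p ⟨(j - 7) / 2, hj⟩ else 0) q hq
  have e1 : (q : ℝ) ^ ((1814 : ℝ) - 1) = (q : ℝ) ^ 1813 := by
    rw [← Real.rpow_natCast]
    norm_num
  have key : ∀ i : Fin 4, j = 2 * (i : ℕ) + 7 → ∃ i, c ≤ (q : ℝ) ^ ((1814 : ℝ) - 1) *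
      (1 + Real.log q) ^ (0 : ℝ) * |(q : ℝ) * number i - p i| := by
    intro i hij
    refine ⟨i, ?_⟩
    subst hij
    have h1 : (2 * (i : ℕ) + 7 - 7) / 2 = i := by omega
    have h2 : (2 * (i : ℕ) + 7 - 7) / 2 < 4 := by omega
    rw [dif_pos h2] at hv
    have h3 : (⟨(2 * (i : ℕ) + 7 - 7) / 2, h2⟩ : Fin 4) = i := Fin.ext h1
    rw [h3] at hv
    have h4 : c / (q : ℝ) ^ 1814 ≤ |number i - (p i : ℝ) / q| := hv
    rw [div_le_iff₀ (by positivity)] at h4
    have e2 : |(q : ℝ) * number i - p i| = q * |number i - (p i : ℝ) / q| := by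
      nth_rewrite 2 [← abs_of_pos hq0]
      rw [← abs_mul]
      congr 1
      field_simp
    rw [e1, e2, Real.rpow_zero, mul_one]
    calc c ≤ |number i - (p i : ℝ) / q| * (q : ℝ) ^ 1814 := h4
      _ = _ := by ring
  fin_cases hj
  · exact key 0 rfl
  · exact key 1 rfl
  · exact key 2 rfl
  · exact key 3 rfl

theorem log_num : 4 * Real.log 1814 < 31 := by
  suffices h : Real.log 1814 < 31 / 4 by linarith
  rw [Real.log_lt_iff_lt_exp (by positivity)]
  have h2 : Real.exp (31 / 4) ^ 4 = Real.exp 1 ^ 31 := by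
    rw [← Real.exp_nat_mul, ← Real.exp_nat_mul]
    norm_num
  have h3 := Real.exp_one_gt_d9
  have h4 : (1814 : ℝ) ^ 4 < Real.exp (31 / 4) ^ 4 := by
    rw [h2]
    calc (1814 : ℝ) ^ 4 < 2.7182818283 ^ 31 := by norm_num
      _ ≤ _ := pow_le_pow_left₀ (by norm_num) h3.le 31
  exact lt_of_pow_lt_pow_left₀ 4 (Real.exp_pos _).le h4

/-- **The digits of `ζ(7), ζ(9), ζ(11), ζ(13)` are not cut into few pieces of small linear complexity.** -/
theorem result : (∀ i : Fin 4, ((number i : ℝ) : ℂ) = riemannZeta ((2 * (i : ℕ) + 7 : ℕ) : ℂ)) ∧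
    (∃ C : ℝ, 0 < C ∧ ∀ b : ℕ, 2 ≤ b → ∀ N : ℕ,
      -- (1) common places, common recurrences
      (∀ (m : ℕ) (E : Finset ℕ), CommonCut b number N m E →
        (N : ℝ) ≤ (∑ i ∈ range (E.card + 1), (1814 : ℝ) ^ (i + 1)) *
          (m + C * Real.sqrt (((m : ℝ) + 1) * Real.log ((m : ℝ) + 2)))) ∧
      -- (2) for each number places and recurrences of its own
      ∀ (m : Fin 4 → ℕ) (E : Fin 4 → Finset ℕ), (∀ j, Cut b (number j) N (m j) (E j)) →
        (N : ℝ) ≤ (∑ i ∈ range (∑ j, (E j).card + 1), (1814 : ℝ) ^ (i + 1)) *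
          ((∑ j, m j : ℕ) +
            C * Real.sqrt ((((∑ j, m j : ℕ) : ℝ) + 1) * Real.log (((∑ j, m j : ℕ) : ℝ) + 2)))) ∧
    -- (3) at every large scale one of the numbers is not cut into few pieces of small complexity
    ∀ θ c : ℝ, 0 ≤ θ → 0 ≤ c → θ + 31 * c < 1 → ∃ N₀ : ℕ, ∀ b : ℕ, 2 ≤ b → ∀ N : ℕ, N₀ ≤ N →
      ∃ j, ∀ (m : ℕ) (E : Finset ℕ), (m : ℝ) ≤ (N : ℝ) ^ θ → (E.card : ℝ) ≤ c * Real.log N →
        ¬ Cut b (number j) N m E := by
  obtain ⟨c0, hc0, hM⟩ := meas
  refine ⟨fun i => ?_, ?_, fun θ c hθ hc hlt => ?_⟩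
  · rw [zeta_eq_tsum_one_div_nat_add_one_cpow (by simp; linarith), number, Complex.ofReal_tsum]
    refine tsum_congr fun n => ?_
    rw [Complex.cpow_natCast]
    push_cast
    rfl
  · obtain ⟨C1, hC1, h1⟩ := Pool.Agent.R473.FP.pieces 4 number 1814 c0 0 (by norm_num) hc0 le_rfl hM
    obtain ⟨C2, hC2, h2⟩ := Pool.Agent.N553.PC.cut_sep 4 number 1814 c0 0 (by norm_num) hc0 le_rfl hM
    have mono : ∀ (C' : ℝ) (m : ℕ) (S N : ℝ), C' ≤ max C1 C2 → 0 ≤ S →
        N ≤ S * (m + C' * Pool.Agent.W47.JL.err m) →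
        N ≤ S * (m + max C1 C2 * Real.sqrt (((m : ℝ) + 1) * Real.log ((m : ℝ) + 2))) := by
      intro C' m S N hC' hS h
      refine h.trans (mul_le_mul_of_nonneg_left ?_ hS)
      have h0 : 0 ≤ Real.sqrt (((m : ℝ) + 1) * Real.log ((m : ℝ) + 2)) := Real.sqrt_nonneg _
      exact add_le_add le_rfl (mul_le_mul_of_nonneg_right hC' h0)
    refine ⟨max C1 C2, lt_max_of_lt_left hC1, fun b hb N => ⟨fun m E hE => ?_, fun m E hE => ?_⟩⟩
    · refine mono C1 m _ _ (le_max_left _ _) (Finset.sum_nonneg fun i _ => by positivity) ?_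
      refine h1 b hb N m E.card E le_rfl fun u v huv hvN hE' => ?_
      obtain ⟨c, hc⟩ := hE u v huv hvN hE'
      exact ⟨c, fun j i hi hiv => hc j i hi hiv⟩
    · exact mono C2 _ _ _ (le_max_right _ _) (Finset.sum_nonneg fun i _ => by positivity)
        (h2 b hb N m E hE)
  · obtain ⟨N₀, h⟩ := Pool.Agent.N553.PC.cut_large 4 number 1814 c0 0 (by norm_num) hc0 le_rfl hM θ c
      hθ hc (by
        push_cast
        have h1 := mul_le_mul_of_nonneg_left log_num.le hc
        linarith)
    exact ⟨N₀, h⟩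

end Pool.Agent.Results.MP_4f096c_nt.Pieces7To13
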